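import Pool.Agent.Y698.Fi

/-!
# Quadratic twists of `X_0(49)` over the subfields of degree `2 ^ n` of `ℚ(ζ_r)`

`r` is a prime number with `r ≡ 1 mod 4` which is inert in `ℚ(√-7)`, `K` the subfield of degree `2 ^ n`
of `ℚ(ζ_r)`, and `D` a product of different primes `q ≡ 1 mod 4`, `q ≠ r`, inert in `ℚ(√-7)`, whose
Frobenius elements in `Gal(K/ℚ)` have order one or two (`q²` is a `2 ^ n`-th power modulo `r`).

Theorem: for the quadratic twist `E_D` of `X_0(49)`, `L(E_D/K, s)` (the `L`-series of Mathlib) has an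
entire continuation, does not vanish at `s = 1`, and `E_D(K)` is finite.
-/

set_option autoImplicit false

namespace Pool.Agent.Results.MP_f50388_nt.TwistsRank

open NumberField

/-- For `D ≡ 1 mod 4` the quadratic twist by `D` of the elliptic curve
`X_0(49) : y² + x y = x³ - x² - 2 x - 1`:
the curve `y² + x y = x³ - (3 D + 1) / 4 x² - 2 D² x - D³`. -/
def twist (D : ℕ) : WeierstrassCurve ℤ := ⟨1, -((3 * D + 1) / 4), 0, -2 * D ^ 2, -D ^ 3⟩

theorem result {r n : ℕ} (hr : r.Prime) (h4 : r % 4 = 1) (h7 : ¬ IsSquare (-7 : ZMod r)) (hn : 1 ≤ n)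
    (K : IntermediateField ℚ (CyclotomicField r ℚ)) (hK : Module.finrank ℚ K = 2 ^ n)
    (S : Finset ℕ) (hS : ∀ q ∈ S, q.Prime ∧ q % 4 = 1 ∧ ¬ IsSquare (-7 : ZMod q) ∧ q ≠ r ∧
      ∃ y : ZMod r, y ^ 2 ^ n = (q : ZMod r) ^ 2) :
    ∃ Λ : ℂ → ℂ, Differentiable ℂ Λ ∧
      (∀ s : ℂ, 2 < s.re → Λ s = ((twist (∏ q ∈ S, q)).map (Int.castRingHom K)).LSeries s) ∧
      Λ 1 ≠ 0 ∧ Finite ((twist (∏ q ∈ S, q)).map (Int.castRingHom K)).toAffine.Point :=
  Pool.Agent.Y698.level_three hr h4 h7 hn K hK hS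

end Pool.Agent.Results.MP_f50388_nt.TwistsRank
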