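import Pool.Agent.Y698.SG.Fj
import Pool.Agent.Y698.SG.Ug

/-!
# Quadratic twists of `X_0(49)` by inert and split primes over the subfields of degree `2 ^ n` of
# `ℚ(ζ_r)`: rank zero and the 2-part of the formula

`r` is a prime number with `r ≡ 1 mod 4` which is inert in `ℚ(√-7)`, and `K` is the subfield of degree
`2 ^ n` of `ℚ(ζ_r)`, for any `n ≥ 1` such that `2 ^ n` divides `r - 1`; `K` is totally real or totally
complex. `D` is the product of two sets of primes `≡ 1 mod 4` different from `r`:
* the primes `q ∈ Q` are inert in `ℚ(√-7)`, and `q²` is a `2 ^ n`-th power modulo `r` (the Frobenius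
  element of `q` in `Gal(K/ℚ)` has order one or two);
* the primes `p ∈ P` split in `ℚ(√-7)`, and `p` is a `2 ^ n`-th power modulo `r` (`p` splits completely
  in `K`); there is at least one of them, and any number of them is allowed.
The condition is that a matrix over `𝔽₂` with rows and columns indexed by `P`, made of the quadratic
residue symbols `(q/p)`, `(p'/p)` and the quartic symbols of `-7` modulo `p`, is not singular.
`E_D` is the quadratic twist by `D` of `X_0(49) : y² + x y = x³ - x² - 2 x - 1`.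

Theorem: `L(E_D/K, s)` is entire and does not vanish at `s = 1`; the order of `E_D(K)` is twice an odd
number; the 2-primary part of the Tate-Shafarevich group `Ш(E_D/K)` is zero; the equation of `E_D` is
minimal at all finite places of `K`, the product of the Tamagawa numbers is
`2 ^ (1 + (#Q + 2 #P) 2 ^ n)`; and the formula for `L(E_D/K, 1)` holds up to a 2-adic unit:
the quotient of `L(E_D/K, 1)` and `#Ш(E_D/K)[2^∞] Ω ∏ c_v / (√|Disc K| #E_D(K)²)` is an algebraic
number which is a unit at all the primes above two.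

Proof.
* Analytic side. `L(E_D/K, s)` is the product of the `L(ψ ε (χ ∘ N), s)`, `ψ` the Hecke character of
  `X_0(49)`, `ε` the quadratic character of `D` and `χ` the characters of `Gal(K/ℚ)`. The values at
  `s = 1` are expressed by `℘`-functions at division points. The character `ε ∘ N` is the product of the
  quadratic characters of the primes of `ℚ(√-7)` above `D`; the sum over all the subsets of this set of
  primes is divisible by a known power of two, and an induction on the subsets gives the value modulo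
  the primes above two as the determinant of a Laplacian-type matrix of the quadratic residue symbols
  between the primes of `ℚ(√-7)`. By the reciprocity law this determinant is the square of the
  determinant of the matrix of size `P`.
* Periods. The integrals over `E(ℝ)` and `E(ℂ)` are computed with `℘`, as the least real period and
  twice the area of a fundamental domain of the lattice.
* Algebraic side. A `2`-descent over `K(√-7)`, for points and for continuous cocycles that are locally
  trivial at all places: the cyclic group of order `2 ^ n` acts on the classes, which reduces it to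
  elements of `ℚ(√-7)`; the local conditions above the primes of `P` are the linear equations of the
  same matrix.
-/

set_option autoImplicit false

open NumberField NumberField.InfinitePlace IsDedekindDomain WeierstrassCurve MeasureTheory

namespace Pool.Agent.Results.MP_1a91b9_nt.TwistsTwoPartSplit

open Pool.Agent.TH841.NF.D (Sha)
open Pool.Agent.TH841.SH.D (Pt)

/-- For `D ≡ 1 mod 4` the quadratic twist by `D` of the elliptic curve
`X_0(49) : y² + x y = x³ - x² - 2 x - 1`:
the curve `y² + x y = x³ - (3 D + 1) / 4 x² - 2 D² x - D³`. -/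
def twist (D : ℕ) : WeierstrassCurve ℤ := ⟨1, -((3 * D + 1) / 4), 0, -2 * D ^ 2, -D ^ 3⟩

/-- The curve given by the equation of `W` over the ring `R`. -/
abbrev base (W : WeierstrassCurve ℤ) (R : Type) [CommRing R] : WeierstrassCurve R :=
  W.map (Int.castRingHom R)

section

variable {K : Type} [Field K] [NumberField K]

/-- The equation is minimal at the finite place `v` of `K`: no change of variables over `K` that
keeps the coefficients integral at `v` decreases the order of the discriminant. -/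
def MinimalAt (W : WeierstrassCurve K) (v : HeightOneSpectrum (𝓞 K)) : Prop :=
  ∀ C : VariableChange K, v.valuation K (C • W).a₁ ≤ 1 → v.valuation K (C • W).a₂ ≤ 1 →
    v.valuation K (C • W).a₃ ≤ 1 → v.valuation K (C • W).a₄ ≤ 1 → v.valuation K (C • W).a₆ ≤ 1 →
    v.valuation K (C • W).Δ ≤ v.valuation K W.Δ

/-- `W⁰(K_v)`, the group of the points of `W` over the completion `K_v` with nonsingular reduction:
the point at infinity and the points `(x, y)` where `x` is not integral, or one of the partial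
derivatives of `y² + a₁ x y + a₃ y - x³ - a₂ x² - a₄ x - a₆` is a unit at `(x, y)`.
Here `Pt W K_v` is the group of the points of `W` over `K_v`. -/
noncomputable def nonsing (W : WeierstrassCurve K) (v : HeightOneSpectrum (𝓞 K)) :
    AddSubgroup (Pt W (v.adicCompletion K)) :=
  AddSubgroup.closure {P | ∀ x y h, P = Affine.Point.some x y h →
    1 < Valued.v x ∨
    Valued.v ((W.baseChange (v.adicCompletion K)).a₁ * y -
      (3 * x ^ 2 + 2 * (W.baseChange (v.adicCompletion K)).a₂ * x +
        (W.baseChange (v.adicCompletion K)).a₄)) = 1 ∨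
    Valued.v (2 * y + (W.baseChange (v.adicCompletion K)).a₁ * x +
      (W.baseChange (v.adicCompletion K)).a₃) = 1}

/-- The Tamagawa number `c_v = [W(K_v) : W⁰(K_v)]` of a minimal equation. -/
noncomputable def c (W : WeierstrassCurve K) (v : HeightOneSpectrum (𝓞 K)) : ℕ :=
  (nonsing W v).index

/-- The product of the Tamagawa numbers. -/
noncomputable def Tam (W : WeierstrassCurve K) : ℕ := ∏ᶠ v : HeightOneSpectrum (𝓞 K), c W v

/-- The 2-primary part of the Tate-Shafarevich group over `K`. -/
def Sha2 (W : WeierstrassCurve K) : Set (Sha W) := {x | ∃ n : ℕ, 2 ^ n • x = 0}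

end

/-- `4 x³ + b₂ x² + 2 b₄ x + b₆ = (2 y + a₁ x + a₃)²`. -/
def cubic (W : WeierstrassCurve ℤ) {R : Type} [CommRing R] (x : R) : R :=
  4 * x ^ 3 + W.b₂ * x ^ 2 + 2 * W.b₄ * x + W.b₆

/-- `∫_{W(ℝ)} |ω|` with `ω = dx / (2 y + a₁ x + a₃)`, as an integral over `x`: two real points lie
over each `x` with `cubic x > 0`. -/
noncomputable def realPeriod (W : WeierstrassCurve ℤ) : ℝ :=
  2 * ∫ x in {x : ℝ | 0 < cubic W x}, 1 / √(cubic W x)

/-- `2 ∫_{W(ℂ)} |ω ∧ ω̄|`, where `|ω ∧ ω̄| = du dv` in a local parameter `z = u + i v` with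
`dz = ω`, as an integral over `x`: two points lie over a general `x`, and `|ω ∧ ω̄|` is the area
element of the plane of `x` divided by `|cubic x|`. -/
noncomputable def complexPeriod (W : WeierstrassCurve ℤ) : ℝ := 2 * (2 * ∫ x : ℂ, 1 / ‖cubic W x‖)

/-- `Ω_{W/K}`. -/
noncomputable def Omega (K : Type) [Field K] [NumberField K] (W : WeierstrassCurve ℤ) : ℝ :=
  realPeriod W ^ nrRealPlaces K * complexPeriod W ^ nrComplexPlaces K

/-- The right side of the formula for a curve of rank zero with an equation that is minimal at all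
finite places, with the 2-primary part of the Tate-Shafarevich group:
`#Ш(W/K)[2^∞] Ω_{W/K} ∏ c_v / (√|Disc K| #W(K)²)`. -/
noncomputable def rhs (K : Type) [Field K] [NumberField K] (W : WeierstrassCurve ℤ) : ℝ :=
  (Nat.card (Sha2 (base W K)) : ℝ) * Omega K W * (Tam (base W K) : ℝ) /
    (√|(discr K : ℝ)| * (Nat.card (base W K).toAffine.Point : ℝ) ^ 2)

open Classical in
/-- `1` if `m` is not a square modulo `p`, and `0` if it is -/
noncomputable def nonsq (p m : ℕ) : ZMod 2 := if IsSquare (m : ZMod p) then 0 else 1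

open Classical in
/-- `1` if `-7` is not a fourth power modulo `p`, and `0` if it is -/
noncomputable def nonfourth (p : ℕ) : ZMod 2 := if ∃ y : ZMod p, y ^ 4 = -7 then 0 else 1

/-- The matrix over the field with two elements, with rows and columns indexed by `P`: the entry at
`(i, j)` is `nonsq i j` for `i ≠ j`, and the entry at `(i, i)` is the sum of `nonfourth i` and of the
`nonsq i l` for all the `l ≠ i` in `Q` and `P`. -/
noncomputable def mat (Q P : Finset ℕ) : Matrix P P (ZMod 2) := Matrix.of fun i j =>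
  if i = j then nonfourth i + ∑ q ∈ Q, nonsq i q + ∑ p ∈ P.erase i, nonsq i p else nonsq i j

section proof

open Pool.Agent.Y698

lemma base_eq {D j : ℕ} (hj : D = 1 + 4 * j) (K : Type) [Field K] : base (twist D) K = AX K j :=
  twZ_map hj K

lemma cubic_eq {D j : ℕ} (hj : D = 1 + 4 * j) {R : Type} [CommRing R] (x : R) :
    cubic (twist D) x = psD (1 + 4 * j) x := by
  have h1 : (3 * (D : ℤ) + 1) / 4 = 1 + 3 * j := by
    rw [hj]
    push_cast
    omega
  unfold cubic twist WeierstrassCurve.b₂ WeierstrassCurve.b₄ WeierstrassCurve.b₆ psD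
  simp only
  rw [h1, hj]
  push_cast
  ring

lemma real_eq {D j : ℕ} (hj : D = 1 + 4 * j) : realPeriod (twist D) =
    ∫ x in {x : ℝ | 0 < psD (1 + 4 * j) x}, 2 / Real.sqrt (psD (1 + 4 * j) x) := by
  unfold realPeriod
  simp only [cubic_eq hj]
  rw [← integral_const_mul]
  congr 1
  funext x
  ring

lemma cplx_eq {D j : ℕ} (hj : D = 1 + 4 * j) : complexPeriod (twist D) =
    ∫ x : ℂ, 4 / ‖psD (1 + 4 * j) x‖ := by
  unfold complexPeriod
  simp only [cubic_eq hj]
  rw [← mul_assoc, ← integral_const_mul]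
  congr 1
  funext x
  ring

end proof

/-- **Quadratic twists of `X_0(49)` by inert and split primes over `K`: rank zero and the 2-part of
the formula.** -/
theorem result {r n : ℕ} (hr : r.Prime) (h4 : r % 4 = 1) (h7 : ¬ IsSquare (-7 : ZMod r))
    (hn : 1 ≤ n) (K : IntermediateField ℚ (CyclotomicField r ℚ))
    (hK : Module.finrank ℚ K = 2 ^ n)
    (Q : Finset ℕ) (hQ : ∀ q ∈ Q, q.Prime ∧ q % 4 = 1 ∧ ¬ IsSquare (-7 : ZMod q) ∧ q ≠ r ∧
      ∃ y : ZMod r, y ^ 2 ^ n = (q : ZMod r) ^ 2)
    (P : Finset ℕ) (_hne : P.Nonempty)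
    (hP : ∀ p ∈ P, p.Prime ∧ p % 4 = 1 ∧ IsSquare (-7 : ZMod p) ∧
      ∃ y : ZMod r, y ^ 2 ^ n = (p : ZMod r))
    (hdet : (mat Q P).det ≠ 0)
    (D : ℕ) (hD : D = (∏ q ∈ Q, q) * ∏ p ∈ P, p) :
    (∀ v : HeightOneSpectrum (𝓞 K), MinimalAt (base (twist D) K) v) ∧
    (∃ t : ℕ, Odd t ∧ Nat.card (base (twist D) K).toAffine.Point = 2 * t) ∧
    Tam (base (twist D) K) = 2 ^ (1 + (Q.card + 2 * P.card) * 2 ^ n) ∧
    Sha2 (base (twist D) K) = {0} ∧
    ∃ Λ : ℂ → ℂ, Differentiable ℂ Λ ∧
      (∀ s : ℂ, 2 < s.re → Λ s = (base (twist D) K).LSeries s) ∧ Λ 1 ≠ 0 ∧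
      ∃ m : ℤ, Odd m ∧ IsIntegral ℤ (m * (Λ 1 / rhs K (twist D))) ∧
        IsIntegral ℤ (m * (rhs K (twist D) / Λ 1)) := by
  have : Fact r.Prime := ⟨hr⟩
  have hM : IsCyclotomicExtension {r} ℚ (CyclotomicField r ℚ) := Pool.Agent.Y698.cyc_inst r
  obtain ⟨k, rfl⟩ : ∃ k, n = k + 1 := ⟨n - 1, by omega⟩
  have hK' : Module.finrank ℚ K = 2 ^ (k + 1) := hK
  have hdt : Pool.Agent.Y698.SG.Dt r (k + 1) Q P :=
    { hn := hn
      hr := ⟨hr, h4, h7⟩
      hQ := fun q hq => ⟨⟨(hQ q hq).1, (hQ q hq).2.1, (hQ q hq).2.2.1⟩, (hQ q hq).2.2.2.1,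
        (hQ q hq).2.2.2.2⟩
      hP := fun p hp => ⟨⟨(hP p hp).1, (hP p hp).2.1, (hP p hp).2.2.1⟩, (hP p hp).2.2.2⟩
      det := hdet }
  have hDu : D = ∏ q ∈ Q ∪ P, q := by rw [hD, Finset.prod_union hdt.disj]
  have hm4 := Pool.Agent.Y698.prod_mod_four (S := Q ∪ P) fun q hq => (hdt.gp q hq).m4
  obtain ⟨j, hj⟩ : ∃ j, ∏ q ∈ Q ∪ P, q = 1 + 4 * j := ⟨(∏ q ∈ Q ∪ P, q) / 4, by omega⟩
  have hDj : D = 1 + 4 * j := by rw [hDu, hj]
  have hsha : Sha2 (Pool.Agent.Y698.AX K j) = {0} := by
    apply Set.eq_singleton_iff_unique_mem.2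
    refine ⟨⟨0, smul_zero _⟩, ?_⟩
    rintro x ⟨l, hl⟩
    exact Pool.Agent.Y698.SG.sha_two_powE (CyclotomicField r ℚ) K hK' hdt hj x l hl
  obtain ⟨Λ, h1, h2, h3, m, hm, i1, i2⟩ :=
    Pool.Agent.Y698.SG.level_five (CyclotomicField r ℚ) K hK' hdt hj
  have hrhs : (Λ 1 / (rhs K (twist D) : ℂ)) = Pool.Agent.Y698.quoD K j (Λ 1) := by
    unfold rhs Omega
    rw [base_eq hDj, hsha, real_eq hDj, cplx_eq hDj, Nat.card_unique]
    unfold Pool.Agent.Y698.quoD
    have hT : Tam (Pool.Agent.Y698.AX K j) =
      ∏ᶠ v, Pool.Agent.Y698.tam (Pool.Agent.Y698.AX K j) v := rfl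
    rw [hT]
    generalize (∏ᶠ v, Pool.Agent.Y698.tam (Pool.Agent.Y698.AX K j) v : ℕ) = t
    push_cast
    rw [one_mul, div_div_eq_mul_div, ← mul_assoc]
  have hinv : (rhs K (twist D) : ℂ) / Λ 1 = (Pool.Agent.Y698.quoD K j (Λ 1))⁻¹ := by
    rw [← hrhs, inv_div]
  rw [← hrhs] at i1
  rw [← hinv] at i2
  rw [base_eq hDj]
  exact ⟨fun v => Pool.Agent.Y698.SG.minimal_E (CyclotomicField r ℚ) K h7
      (fun q hq => ⟨hdt.gp q hq, hdt.ne q hq⟩) hj v,
    Pool.Agent.Y698.SG.tors_cardE (CyclotomicField r ℚ) K hK' hdt hj,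
    Pool.Agent.Y698.SG.tam_prodE (CyclotomicField r ℚ) K hK' hdt hj,
    hsha, Λ, h1, h2, h3, m, hm, i1, i2⟩

end Pool.Agent.Results.MP_1a91b9_nt.TwistsTwoPartSplit
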