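import Pool.Agent.Y698.Fin1

/-!
# `X_0(49)` over the subfields of degree `2 ^ n` of `ℚ(ζ_r)`: the order of vanishing and the rank

`A : y² + x y = x³ - x² - 2 x - 1` is the modular curve `X_0(49)`, `r` a prime number with
`r ≡ 1 mod 4` which is inert in `ℚ(√-7)`, and `K` the subfield of degree `2 ^ n` of `ℚ(ζ_r)`, for any
`n ≥ 1` such that `2 ^ n` divides `r - 1` (`K` may be real or totally complex).

Theorem: `L(A/K, s)` (the `L`-series of Mathlib, defined by the reductions of `A` at all places of `K`)
has an entire continuation, it does not vanish at `s = 1`, and `A(K)` is finite; so the order of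
vanishing and the rank are equal (to zero).

Proof.
* Analytic side. `L(A/K, s)` is the product of the `L(ψ (χ ∘ N), s)`, `ψ` the Hecke character of
  `A` and `χ` the characters of `Gal(K/ℚ)`. The values at `s = 1` are expressed by `℘`-functions at
  division points (Hecke, Eisenstein-Kronecker); modulo the primes above two all these `χ` are trivial,
  and it is shown that `conj L(ψ (χ ∘ N), 1) / Ω` is a unit at all primes above `(1 + √-7) / 2` for
  `χ ≠ 1`, and the inverse of `2` times a unit for `χ = 1` (`val_chi`, `val_triv`).
* The comparison of the Hecke `L`-series with the `L`-series of Mathlib: the theorem of Deuring for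
  `A` at all primes (also at two), proved by the Kronecker congruence for multiplication by a prime
  element of `ℤ[(1 + √-7) / 2]` in the formal group and a count of torsion points; the local factors
  of Mathlib over `K` (minimal models, bad reduction at the place above `7`) and the splitting of
  the primes in `K`.
* Algebraic side. A `2`-descent over `K(√-7)`: the action of the cyclic group of order `2 ^ n` on the
  classes unramified outside `√-7` reduces it to elements of `ℚ(√-7)` (Hilbert 90), where `r` is
  removed because the place above `r` is totally ramified, and a parity argument at the place above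
  `√-7`, which is inert because `7` is not a square modulo `r`.
-/

set_option autoImplicit false

namespace Pool.Agent.Y698.Var.TwoPowerSubfields

open NumberField

theorem result {r n : ℕ} (hr : r.Prime) (h4 : r % 4 = 1) (h7 : ¬ IsSquare (-7 : ZMod r)) (hn : 1 ≤ n)
    (K : IntermediateField ℚ (CyclotomicField r ℚ)) (hK : Module.finrank ℚ K = 2 ^ n) :
    ∃ Λ : ℂ → ℂ, Differentiable ℂ Λ ∧
      (∀ s : ℂ, 2 < s.re →
        Λ s = ((⟨1, -1, 0, -2, -1⟩ : WeierstrassCurve ℚ).baseChange K).LSeries s) ∧
      Λ 1 ≠ 0 ∧
      Finite ((⟨1, -1, 0, -2, -1⟩ : WeierstrassCurve ℚ).baseChange K).toAffine.Point := by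
  have e : (⟨1, -1, 0, -2, -1⟩ : WeierstrassCurve ℚ).baseChange K = Pool.Agent.Y698.EW K :=
    Pool.Agent.Y698.EW_map _
  rw [e]
  exact Pool.Agent.Y698.level_one hr h4 h7 hn K hK

end Pool.Agent.Y698.Var.TwoPowerSubfields
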